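import Pool.Agent.N936.TC.Stm

/-! # Project TC (helper936), part MET: continuous Hausdorff images of compact metrizable spaces -/

set_option autoImplicit false

namespace Pool.Agent.N327.TC

open Set Topology TopologicalSpace

theorem t_met : Pool.Agent.N936.TC.S_MET := by
  intro P X _ _ _ _ _ Φ hΦ hs
  have hcl : IsClosedMap Φ := hΦ.isClosedMap
  have : CompactSpace X := hs.compactSpace hΦ
  have : SecondCountableTopology P := by
    letI := metrizableSpaceMetric P
    infer_instance
  have hb := isBasis_countableBasis P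
  have hbc := countable_countableBasis P
  have hB : IsTopologicalBasis ((fun u : Set (Set P) => (Φ '' (⋃₀ u)ᶜ)ᶜ) ''
      {u | u.Finite ∧ u ⊆ countableBasis P}) := by
    refine isTopologicalBasis_of_isOpen_of_nhds ?_ ?_
    · rintro _ ⟨u, ⟨-, hu⟩, rfl⟩
      exact (hcl _ (isOpen_sUnion fun t ht => hb.isOpen (hu ht)).isClosed_compl).isOpen_compl
    · intro x U hx hU
      have hK : IsCompact (Φ ⁻¹' {x}) := (isClosed_singleton.preimage hΦ).isCompact
      obtain ⟨u, hu1, hu2, hu3⟩ := hK.elim_finite_subcover_image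
        (b := {v | v ∈ countableBasis P ∧ v ⊆ Φ ⁻¹' U}) (c := fun v => v)
        (fun v hv => hb.isOpen hv.1) (by
          intro p hp
          have hpU : p ∈ Φ ⁻¹' U := by
            have h1 : Φ p = x := hp
            show Φ p ∈ U
            rw [h1]
            exact hx
          obtain ⟨v, hv1, hv2, hv3⟩ := hb.exists_subset_of_mem_open hpU (hU.preimage hΦ)
          exact mem_biUnion (show v ∈ {v | v ∈ countableBasis P ∧ v ⊆ Φ ⁻¹' U} from ⟨hv1, hv3⟩)
            hv2)
      refine ⟨_, ⟨u, ⟨hu2, fun v hv => (hu1 hv).1⟩, rfl⟩, ?_, ?_⟩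
      · rintro ⟨p, hp, hpx⟩
        obtain ⟨v, hv, hpv⟩ := mem_iUnion₂.1 (hu3 (show p ∈ Φ ⁻¹' {x} from hpx))
        exact hp ⟨v, hv, hpv⟩
      · intro y hy
        obtain ⟨p, rfl⟩ := hs y
        by_contra hyU
        refine hy ⟨p, ?_, rfl⟩
        rintro ⟨v, hv, hpv⟩
        exact hyU ((hu1 hv).2 hpv)
  have : SecondCountableTopology X :=
    hB.secondCountableTopology ((countable_setOf_finite_subset hbc).image _)
  exact metrizableSpace_of_t3_secondCountable X

end Pool.Agent.N327.TC
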